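import Mathlib

namespace Pool.Agent.Work.MP_27b024_lc.Six

/-- No induced path on 8 vertices. -/
def P8Free {V : Type} (G : SimpleGraph V) : Prop :=
  IsEmpty (SimpleGraph.pathGraph 8 ↪g G)

end Pool.Agent.Work.MP_27b024_lc.Six
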