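import Pool.Agent.Work.MP_27b024_lc.Gadget

set_option synthInstance.maxSize 100000

namespace Pool.Agent.Work.MP_27b024_lc.Six

/-- Adjacency inside a clause block of 24 vertices, without the edges between the two classes.
Roles 0, 1, 2 are the literal occurrences, 3, 4, 5 the inner terminals, 6 to 9 lie in class A and
10 to 23 in class B. -/
def cA (a b : ℕ) : Bool :=
  (([983040, 14811136, 30720, 3637712, 8323976, 16320, 808, 568, 120, 240, 28704, 24612, 17444,
    3108, 7172, 7208968, 786457, 13139995, 98329, 229393, 14680088, 9469978, 1212434,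
    3276802] : List ℕ).getD a 0).testBit b

/-- Class of a role: 0 terminal, 1 class A, 2 class B. -/
def kr (r : ℕ) : ℕ := if r < 6 then 0 else if r < 10 then 1 else 2

theorem cA_symm_fin : ∀ a b : Fin 24, cA a b = cA b a := by decide +kernel

theorem cA_symm {a b : ℕ} (ha : a < 24) (hb : b < 24) : cA a b = cA b a :=
  cA_symm_fin ⟨a, ha⟩ ⟨b, hb⟩

theorem cA_irr : ∀ a : Fin 24, cA a a = false := by decide +kernel

/-- The only edge between terminals joins roles 3 and 4. -/
theorem cA_term : ∀ a b : Fin 6, cA a b = true → 3 ≤ a.val ∧ 3 ≤ b.val := by decide +kernel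

/-- Literal occurrences only see class B inside the block. -/
theorem cA_occ : ∀ a : Fin 3, ∀ b : Fin 24, cA a b = true → 10 ≤ b.val := by decide +kernel

/-- The edge between terminals is not the middle edge of an induced four-vertex path. -/
theorem cA_mid : ∀ b c : Fin 6, cA b c = true → ∀ a : Fin 24, cA a b = true → cA a c = false →
    ∀ d : Fin 24, cA c d = true → cA b d = false → cA a d = false →
    (kr a = 1 ∧ kr d = 2) ∨ (kr a = 2 ∧ kr d = 1) := by decide +kernel

/-- No walk on five vertices of roles below 10 whose four-vertex windows are induced paths. -/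
theorem cA_five : ∀ a b : Fin 10, cA a b = true → ∀ c : Fin 10, cA b c = true → cA a c = false →
    ∀ d : Fin 10, cA c d = true → cA a d = false → cA b d = false →
    ∀ e : Fin 10, cA d e = true → cA b e = false → cA c e = false → False := by
  decide +kernel

/-- No walk on eight vertices outside class A whose four-vertex windows are induced paths. -/
theorem cA_eight : ∀ a : Fin 24, kr a ≠ 1 → ∀ b : Fin 24, kr b ≠ 1 → cA a b = true →
    ∀ c : Fin 24, cA b c = true → cA a c = false → kr c ≠ 1 →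
    ∀ d : Fin 24, cA c d = true → cA a d = false → cA b d = false → kr d ≠ 1 →
    ∀ e : Fin 24, cA d e = true → cA b e = false → cA c e = false → kr e ≠ 1 →
    ∀ f : Fin 24, cA e f = true → cA c f = false → cA d f = false → kr f ≠ 1 →
    ∀ g : Fin 24, cA f g = true → cA d g = false → cA e g = false → kr g ≠ 1 →
    ∀ h : Fin 24, cA g h = true → cA e h = false → cA f h = false → kr h ≠ 1 → False := by
  decide +kernel

/-- The four copies of the complement of the 7-cycle in a clause block. -/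
def emb (t s : ℕ) : ℕ :=
  (([[3, 0, 15, 16, 17, 18, 19], [4, 1, 20, 17, 21, 22, 23], [5, 2, 10, 11, 12, 13, 14],
    [3, 5, 4, 6, 7, 8, 9]] : List (List ℕ)).getD t []).getD s 0

theorem emb_ok : ∀ t : Fin 4, ∀ p q : Fin 7, aA p q = true → cA (emb t p) (emb t q) = true := by
  decide +kernel

theorem emb_lt : ∀ t : Fin 4, ∀ p : Fin 7, emb t p < 24 := by decide +kernel

theorem emb_B : ∀ t : Fin 3, ∀ p : Fin 7, emb t p = 3 + t ∨ emb t p = t ∨ 10 ≤ emb t p := by
  decide +kernel

theorem emb_A : ∀ p : Fin 7, 3 ≤ emb 3 p ∧ emb 3 p < 10 := by decide +kernel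

/-- Colourings of a clause block minus the literal occurrence `t`. -/
def cCol (t r : ℕ) : ℕ :=
  (([[0, 3, 3, 4, 0, 0, 1, 1, 2, 2, 3, 4, 4, 5, 5, 3, 3, 5, 5, 4, 3, 5, 4, 4],
    [3, 0, 3, 0, 3, 0, 1, 1, 2, 2, 3, 4, 4, 5, 5, 3, 4, 4, 5, 5, 4, 5, 5, 3],
    [3, 3, 0, 0, 1, 3, 1, 2, 2, 0, 4, 4, 5, 5, 3, 3, 4, 4, 5, 5, 3, 4, 5, 5]] :
      List (List ℕ)).getD t []).getD r 0

theorem cCol_ok : ∀ t : Fin 3, ∀ a b : Fin 24, a.val ≠ t.val → b.val ≠ t.val → cA a b = true →
    cCol t a ≠ cCol t b := by decide +kernel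

theorem cCol_range : ∀ t : Fin 3, ∀ a : Fin 24, cCol t a < 6 ∧ (kr a = 1 → cCol t a < 3) ∧
    (10 ≤ a.val → 3 ≤ cCol t a) ∧ (a.val < 3 → a.val ≠ t.val → 3 ≤ cCol t a) := by
  decide +kernel

/-- Classes compatible with non-adjacency. -/
def nn (x y : ℕ) : Bool := decide (¬(x = 1 ∧ y = 2) ∧ ¬(x = 2 ∧ y = 1))
/-- Not both terminals. -/
def mm (x y : ℕ) : Bool := decide (¬(x = 0 ∧ y = 0))

theorem kinds : ∀ a b c : Fin 3, nn a c = true → mm b c = true →
    ∀ d : Fin 3, nn a d = true → nn b d = true → mm c d = true →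
    ∀ e : Fin 3, nn b e = true → nn c e = true → mm d e = true →
    ∀ f : Fin 3, nn c f = true → nn d f = true → mm e f = true →
    ∀ g : Fin 3, nn d g = true → nn e g = true → mm f g = true →
    ∀ h : Fin 3, nn e h = true → nn f h = true →
    (a.val ≠ 1 ∧ b.val ≠ 1 ∧ c.val ≠ 1 ∧ d.val ≠ 1 ∧ e.val ≠ 1 ∧ f.val ≠ 1 ∧ g.val ≠ 1 ∧
      h.val ≠ 1) ∨
    (a.val ≠ 2 ∧ b.val ≠ 2 ∧ c.val ≠ 2 ∧ d.val ≠ 2 ∧ e.val ≠ 2 ∧ f.val ≠ 2 ∧ g.val ≠ 2 ∧
      h.val ≠ 2) := by
  decide +kernel

end Pool.Agent.Work.MP_27b024_lc.Six
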