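import Pool.Agent.Work.MP_27b024_lc.Main
import Pool.Agent.Work.MP_27b024_lc.Six.Defs
import Pool.Agent.Work.MP_27b024_lc.Six.Gadget

namespace Pool.Agent.Work.MP_27b024_lc.Six

open Pool.Agent.Lib.Cx

/-- Class of a vertex: 0 terminal, 1 class A, 2 class B. -/
def kd (φ : CNF) (i : ℕ) : ℕ := if i < 24 * φ.length then kr (i % 24) else 1

/-- The literal of an occurrence vertex. -/
def lit (φ : CNF) (i : ℕ) : ℕ × Bool := (φ.getD (i / 24) []).getD (i % 24) (0, false)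

/-- The variable gadget of a vertex. -/
def vv (φ : CNF) (i : ℕ) : ℕ :=
  if i < 24 * φ.length then (lit φ i).1 else (i - 24 * φ.length) / 5

/-- The role of a vertex in its variable gadget. -/
def ss (φ : CNF) (i : ℕ) : ℕ :=
  if i < 24 * φ.length then (if (lit φ i).2 = true then 0 else 1)
  else 2 + (i - 24 * φ.length) % 5

/-- The vertex belongs to a variable gadget. -/
def inV (φ : CNF) (i : ℕ) : Prop := 24 * φ.length ≤ i ∨ i % 24 < 3

/-- Adjacency inside a clause block. -/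
def CAdj (φ : CNF) (i j : ℕ) : Prop :=
  i < 24 * φ.length ∧ j < 24 * φ.length ∧ i / 24 = j / 24 ∧ cA (i % 24) (j % 24) = true

/-- Adjacency inside a variable gadget. -/
def VAdj (φ : CNF) (i j : ℕ) : Prop :=
  inV φ i ∧ inV φ j ∧ vv φ i = vv φ j ∧ aA (ss φ i) (ss φ j) = true

/-- Adjacency. -/
def Adj6 (φ : CNF) (i j : ℕ) : Prop :=
  (kd φ i = 1 ∧ kd φ j = 2) ∨ (kd φ i = 2 ∧ kd φ j = 1) ∨ CAdj φ i j ∨ VAdj φ i j

instance (φ : CNF) (i j : ℕ) : Decidable (Adj6 φ i j) := by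
  unfold Adj6 CAdj VAdj inV; infer_instance

theorem m24 (x : ℕ) : x % 24 < 24 := Nat.mod_lt _ (by norm_num)

theorem Adj6.symm {φ : CNF} {i j : ℕ} (h : Adj6 φ i j) : Adj6 φ j i := by
  rcases h with h | h | h | h
  · exact Or.inr (Or.inl ⟨h.2, h.1⟩)
  · exact Or.inl ⟨h.2, h.1⟩
  · exact Or.inr (Or.inr (Or.inl ⟨h.2.1, h.1, h.2.2.1.symm,
      by rw [cA_symm (m24 _) (m24 _)]; exact h.2.2.2⟩))
  · exact Or.inr (Or.inr (Or.inr ⟨h.2.1, h.1, h.2.2.1.symm, by rw [aA_symm]; exact h.2.2.2⟩))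

/-- The graph of a formula. -/
def gr6 (φ : CNF) (N : ℕ) : SimpleGraph (Fin N) where
  Adj i j := i.val ≠ j.val ∧ Adj6 φ i j
  symm := ⟨fun _ _ h => ⟨h.1.symm, h.2.symm⟩⟩
  loopless := ⟨fun _ h => h.1 rfl⟩

theorem kd_lt (φ : CNF) (i : ℕ) : kd φ i < 3 := by
  unfold kd kr; split_ifs <;> omega

theorem ss_lt (φ : CNF) (i : ℕ) : ss φ i < 7 := by
  unfold ss; split_ifs <;> omega

theorem kd_of_lt {φ : CNF} {i : ℕ} (h : i < 24 * φ.length) : kd φ i = kr (i % 24) := if_pos h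

theorem lt_of_kd {φ : CNF} {i : ℕ} (h : kd φ i ≠ 1) : i < 24 * φ.length := by
  by_contra h'
  exact h (if_neg h')

/-- Two occurrence vertices are not adjacent in a variable gadget. -/
theorem not_VAdj {φ : CNF} {i j : ℕ} (hi : i < 24 * φ.length) (hj : j < 24 * φ.length) :
    ¬VAdj φ i j := by
  rintro ⟨-, -, -, h⟩
  have h1 : ss φ i ≤ 1 := by unfold ss; rw [if_pos hi]; split_ifs <;> omega
  have h2 : ss φ j ≤ 1 := by unfold ss; rw [if_pos hj]; split_ifs <;> omega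
  unfold aA at h
  simp only [decide_eq_true_eq] at h
  omega

theorem nadj_c {φ : CNF} {i j : ℕ} (h : ¬Adj6 φ i j) (hi : i < 24 * φ.length)
    (hj : j < 24 * φ.length) (e : i / 24 = j / 24) : cA (i % 24) (j % 24) = false := by
  by_contra h'
  exact h (Or.inr (Or.inr (Or.inl ⟨hi, hj, e, by simpa using h'⟩)))

theorem nadj_v {φ : CNF} {i j : ℕ} (h : ¬Adj6 φ i j) (hi : inV φ i)
    (hj : inV φ j) (e : vv φ i = vv φ j) : aA (ss φ i) (ss φ j) = false := by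
  by_contra h'
  exact h (Or.inr (Or.inr (Or.inr ⟨hi, hj, e, by simpa using h'⟩)))

/-- Outside class A all edges lie in clause blocks. -/
theorem adj_nA {φ : CNF} {i j : ℕ} (h : Adj6 φ i j) (hi : kd φ i ≠ 1) (hj : kd φ j ≠ 1) :
    CAdj φ i j := by
  rcases h with h | h | h | h
  · exact absurd h.1 hi
  · exact absurd h.2 hj
  · exact h
  · exact absurd h (not_VAdj (lt_of_kd hi) (lt_of_kd hj))

theorem role_lt {φ : CNF} {i : ℕ} (hi : i < 24 * φ.length) (h : kd φ i ≠ 2) : i % 24 < 10 := by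
  rw [kd_of_lt hi] at h
  unfold kr at h
  split_ifs at h <;> omega

/-- Outside class B, an edge at a vertex of a variable gadget lies in that gadget. -/
theorem adj_nB_v {φ : CNF} {i j : ℕ} (h : Adj6 φ i j) (hi : kd φ i ≠ 2) (hj : kd φ j ≠ 2)
    (hv : inV φ i) : VAdj φ i j := by
  rcases h with h | h | h | h
  · exact absurd h.2 hj
  · exact absurd h.1 hi
  · have h1 : i % 24 < 3 := by
      have := h.1
      rcases hv with hv | hv <;> omega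
    have h2 := cA_occ ⟨_, h1⟩ ⟨_, m24 j⟩ h.2.2.2
    have h3 := role_lt h.2.1 hj
    simp only at h2
    omega
  · exact h

/-- Outside class B, an edge at a vertex of no variable gadget lies in a clause block. -/
theorem adj_nB_c {φ : CNF} {i j : ℕ} (h : Adj6 φ i j) (hi : kd φ i ≠ 2) (hj : kd φ j ≠ 2)
    (hv : ¬inV φ i) : CAdj φ i j ∧ ¬inV φ j := by
  refine ⟨?_, fun hv' => hv (adj_nB_v h.symm hj hi hv').2.1⟩
  rcases h with h | h | h | h
  · exact absurd h.2 hj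
  · exact absurd h.1 hi
  · exact h
  · exact absurd h.1 hv

theorem nn_kd {φ : CNF} {i j : ℕ} (h : ¬Adj6 φ i j) : nn (kd φ i) (kd φ j) = true :=
  decide_eq_true ⟨fun h' => h (Or.inl h'), fun h' => h (Or.inr (Or.inl h'))⟩

theorem adj_term {φ : CNF} {i j : ℕ} (h : Adj6 φ i j) (hj : kd φ j = 0) (h3 : 3 ≤ j % 24) :
    CAdj φ i j := by
  have hlt := lt_of_kd (φ := φ) (i := j) (by omega)
  rcases h with h | h | h | h
  · omega
  · omega
  · exact h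
  · have := h.2.1
    unfold inV at this
    omega

theorem mm_kd {φ : CNF} {a b c d : ℕ} (ab : Adj6 φ a b) (bc : Adj6 φ b c) (cd : Adj6 φ c d)
    (ac : ¬Adj6 φ a c) (ad : ¬Adj6 φ a d) (bd : ¬Adj6 φ b d) :
    mm (kd φ b) (kd φ c) = true := by
  refine decide_eq_true fun ⟨hb, hc⟩ => ?_
  have h1 := adj_nA bc (by omega) (by omega)
  have r : ∀ x, x < 24 * φ.length → kd φ x = 0 → x % 24 < 6 := fun x hx h => by
    rw [kd_of_lt hx] at h
    unfold kr at h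
    split_ifs at h <;> omega
  have b6 := r b h1.1 hb
  have c6 := r c h1.2.1 hc
  have h2 := cA_term ⟨_, b6⟩ ⟨_, c6⟩ h1.2.2.2
  have h3 := adj_term ab hb h2.1
  have h4 := adj_term cd.symm hc h2.2
  have e1 := h1.2.2.1
  have e3 := h3.2.2.1
  have e4 := h4.2.2.1
  have h5 := cA_mid ⟨_, b6⟩ ⟨_, c6⟩ h1.2.2.2 ⟨_, m24 a⟩ h3.2.2.2
    (nadj_c ac h3.1 h1.2.1 (by omega)) ⟨_, m24 d⟩
    (by rw [cA_symm (m24 _) (m24 _)]; exact h4.2.2.2)
    (nadj_c bd h1.1 h4.1 (by omega)) (nadj_c ad h3.1 h4.1 (by omega))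
  simp only [← kd_of_lt h3.1, ← kd_of_lt h4.1] at h5
  rcases h5 with h5 | h5
  · exact ad (Or.inl h5)
  · exact ad (Or.inr (Or.inl h5))

/-- The class as an element of `Fin 3`. -/
abbrev kdF (φ : CNF) (i : ℕ) : Fin 3 := ⟨kd φ i, kd_lt φ i⟩

/-- There is no walk on eight vertices all of whose four-vertex windows are induced paths. -/
theorem no_walk {φ : CNF} {a b c d e f g h : ℕ}
    (ab : Adj6 φ a b) (bc : Adj6 φ b c) (cd : Adj6 φ c d) (de : Adj6 φ d e) (ef : Adj6 φ e f)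
    (fg : Adj6 φ f g) (gh : Adj6 φ g h)
    (ac : ¬Adj6 φ a c) (bd : ¬Adj6 φ b d) (ce : ¬Adj6 φ c e) (df : ¬Adj6 φ d f)
    (eg : ¬Adj6 φ e g) (fh : ¬Adj6 φ f h)
    (ad : ¬Adj6 φ a d) (be : ¬Adj6 φ b e) (cf : ¬Adj6 φ c f) (dg : ¬Adj6 φ d g)
    (eh : ¬Adj6 φ e h) : False := by
  rcases kinds (kdF φ a) (kdF φ b) (kdF φ c) (nn_kd ac) (mm_kd ab bc cd ac ad bd) (kdF φ d)
    (nn_kd ad) (nn_kd bd) (mm_kd bc cd de bd be ce) (kdF φ e) (nn_kd be) (nn_kd ce)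
    (mm_kd cd de ef ce cf df) (kdF φ f) (nn_kd cf) (nn_kd df) (mm_kd de ef fg df dg eg)
    (kdF φ g) (nn_kd dg) (nn_kd eg) (mm_kd ef fg gh eg eh fh) (kdF φ h) (nn_kd eh) (nn_kd fh)
    with ⟨ka, kb, kc, kd', ke, kf, kg, kh⟩ | ⟨ka, kb, kc, kd', ke, -, -, -⟩
  · obtain ⟨la, lb, e1, ab⟩ := adj_nA ab ka kb
    obtain ⟨-, lc, e2, bc⟩ := adj_nA bc kb kc
    obtain ⟨-, ld, e3, cd⟩ := adj_nA cd kc kd'
    obtain ⟨-, le, e4, de⟩ := adj_nA de kd' ke
    obtain ⟨-, lf, e5, ef⟩ := adj_nA ef ke kf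
    obtain ⟨-, lg, e6, fg⟩ := adj_nA fg kf kg
    obtain ⟨-, lh, e7, gh⟩ := adj_nA gh kg kh
    have k : ∀ x, x < 24 * φ.length → kd φ x ≠ 1 → kr (x % 24) ≠ 1 := fun x hx hk =>
      kd_of_lt hx ▸ hk
    exact cA_eight ⟨_, m24 a⟩ (k a la ka) ⟨_, m24 b⟩ (k b lb kb) ab
      ⟨_, m24 c⟩ bc (nadj_c ac la lc (by omega)) (k c lc kc)
      ⟨_, m24 d⟩ cd (nadj_c ad la ld (by omega)) (nadj_c bd lb ld (by omega)) (k d ld kd')
      ⟨_, m24 e⟩ de (nadj_c be lb le (by omega)) (nadj_c ce lc le (by omega)) (k e le ke)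
      ⟨_, m24 f⟩ ef (nadj_c cf lc lf (by omega)) (nadj_c df ld lf (by omega)) (k f lf kf)
      ⟨_, m24 g⟩ fg (nadj_c dg ld lg (by omega)) (nadj_c eg le lg (by omega)) (k g lg kg)
      ⟨_, m24 h⟩ gh (nadj_c eh le lh (by omega)) (nadj_c fh lf lh (by omega)) (k h lh kh)
  · by_cases va : inV φ a
    · obtain ⟨-, vb, e1, ab⟩ := adj_nB_v ab ka kb va
      obtain ⟨-, vc, e2, bc⟩ := adj_nB_v bc kb kc vb
      obtain ⟨-, vd, e3, cd⟩ := adj_nB_v cd kc kd' vc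
      obtain ⟨-, ve, e4, de⟩ := adj_nB_v de kd' ke vd
      exact aA_five ⟨_, ss_lt φ a⟩ ⟨_, ss_lt φ b⟩ ab ⟨_, ss_lt φ c⟩ bc
        (nadj_v ac va vc (by omega)) ⟨_, ss_lt φ d⟩ cd (nadj_v ad va vd (by omega))
        (nadj_v bd vb vd (by omega)) ⟨_, ss_lt φ e⟩ de (nadj_v be vb ve (by omega))
        (nadj_v ce vc ve (by omega))
    · obtain ⟨⟨la, lb, e1, ab⟩, vb⟩ := adj_nB_c ab ka kb va
      obtain ⟨⟨-, lc, e2, bc⟩, vc⟩ := adj_nB_c bc kb kc vb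
      obtain ⟨⟨-, ld, e3, cd⟩, vd⟩ := adj_nB_c cd kc kd' vc
      obtain ⟨⟨-, le, e4, de⟩, -⟩ := adj_nB_c de kd' ke vd
      exact cA_five ⟨_, role_lt la ka⟩ ⟨_, role_lt lb kb⟩ ab ⟨_, role_lt lc kc⟩ bc
        (nadj_c ac la lc (by omega)) ⟨_, role_lt ld kd'⟩ cd (nadj_c ad la ld (by omega))
        (nadj_c bd lb ld (by omega)) ⟨_, role_lt le ke⟩ de (nadj_c be lb le (by omega))
        (nadj_c ce lc le (by omega))

theorem emb_adj6 {N : ℕ} {φ : CNF} {V : Type} {F : SimpleGraph V} (e : F ↪g gr6 φ N)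
    {x y : V} (h : x ≠ y) : Adj6 φ (e x) (e y) ↔ F.Adj x y := by
  have h1 := e.map_rel_iff (a := x) (b := y)
  have h2 : (e x).val ≠ (e y).val := fun h' => h (e.injective (Fin.ext h'))
  exact ⟨fun h' => h1.1 ⟨h2, h'⟩, fun h' => (h1.2 h').2⟩

theorem gr6_P8 (φ : CNF) (N : ℕ) : P8Free (gr6 φ N) := by
  refine ⟨fun e => ?_⟩
  have key : ∀ x y : Fin 8, x ≠ y → (Adj6 φ (e x) (e y) ↔ x.val + 1 = y.val ∨ y.val + 1 = x.val) :=
    fun x y h => by rw [emb_adj6 e h, SimpleGraph.pathGraph_adj]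
  refine no_walk (φ := φ) (a := e 0) (b := e 1) (c := e 2) (d := e 3) (e := e 4) (f := e 5)
    (g := e 6) (h := e 7) ?_ ?_ ?_ ?_ ?_ ?_ ?_ ?_ ?_ ?_ ?_ ?_ ?_ ?_ ?_ ?_ ?_ ?_ <;>
    rw [key _ _ (by decide)] <;> decide

theorem gr6_hole (φ : CNF) (N : ℕ) : LongHoleFree (gr6 φ N) := by
  intro m hm
  refine ⟨fun e => ?_⟩
  obtain ⟨k, rfl⟩ : ∃ k, m = k + 5 := ⟨m - 5, by omega⟩
  have key : ∀ x y : Fin (k + 5), x.val < y.val →
      (Adj6 φ (e x) (e y) ↔ x.val + 1 = y.val ∨ (x.val = 0 ∧ y.val = k + 4)) := fun x y h => by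
    rw [emb_adj6 e (fun h' => by rw [h'] at h; exact lt_irrefl _ h),
      SimpleGraph.cycleGraph_adj', Fin.sub_def, Fin.sub_def]
    have hx := x.2
    have hy := y.2
    simp only
    rw [show k + 5 - x.val + y.val = (y.val - x.val) + (k + 5) by omega, Nat.add_mod_right,
      Nat.mod_eq_of_lt (show k + 5 - y.val + x.val < k + 5 by omega),
      Nat.mod_eq_of_lt (show y.val - x.val < k + 5 by omega)]
    omega
  let w : ℕ → Fin (k + 5) := fun i => if h : i < k + 5 then ⟨i, h⟩ else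
    if h' : i - (k + 5) < k + 5 then ⟨i - (k + 5), h'⟩ else 0
  have hw : ∀ i, i < 8 → (w i).val = if i < k + 5 then i else i - (k + 5) := fun i hi => by
    simp only [w]
    split_ifs with h1 h2
    · rfl
    · rfl
    · omega
  have key2 : ∀ i j, i < j → j < 8 → j ≤ i + 3 → (Adj6 φ (e (w i)) (e (w j)) ↔ i + 1 = j) := by
    intro i j h1 h2 h3
    have hi := hw i (by omega)
    have hj := hw j h2
    rcases lt_trichotomy (w i).val (w j).val with h | h | h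
    · rw [key _ _ h]
      split_ifs at hi hj <;> omega
    · split_ifs at hi hj <;> omega
    · rw [show Adj6 φ (e (w i)) (e (w j)) ↔ Adj6 φ (e (w j)) (e (w i)) from
        ⟨Adj6.symm, Adj6.symm⟩, key _ _ h]
      split_ifs at hi hj <;> omega
  refine no_walk (φ := φ) (a := e (w 0)) (b := e (w 1)) (c := e (w 2)) (d := e (w 3))
    (e := e (w 4)) (f := e (w 5)) (g := e (w 6)) (h := e (w 7))
    ?_ ?_ ?_ ?_ ?_ ?_ ?_ ?_ ?_ ?_ ?_ ?_ ?_ ?_ ?_ ?_ ?_ ?_ <;>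
    rw [key2 _ _ (by decide) (by decide) (by decide)] <;> decide

end Pool.Agent.Work.MP_27b024_lc.Six
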