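import Pool.Agent.Work.MP_27b024_lc.Hard
import Pool.Agent.Work.MP_27b024_lc.Six.Graph

namespace Pool.Agent.Work.MP_27b024_lc.Six

open Pool.Agent.Lib.Cx

theorem kd_clause {φ : CNF} {c r : ℕ} (hc : c < φ.length) (hr : r < 24) :
    kd φ (24 * c + r) = kr r := by
  rw [kd_of_lt (by omega), show (24 * c + r) % 24 = r by omega]

theorem adj_clause6 {φ : CNF} {c r s : ℕ} (hc : c < φ.length) (hr : r < 24) (hs : s < 24)
    (h : cA r s = true) : Adj6 φ (24 * c + r) (24 * c + s) :=
  Or.inr (Or.inr (Or.inl ⟨by omega, by omega, by omega, by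
    rw [show (24 * c + r) % 24 = r by omega, show (24 * c + s) % 24 = s by omega]; exact h⟩))

theorem kd_var {φ : CNF} (s : ℕ) : kd φ (24 * φ.length + s) = 1 := if_neg (by omega)

theorem vv_var {φ : CNF} (s : ℕ) : vv φ (24 * φ.length + s) = s / 5 := by
  unfold vv
  rw [if_neg (by omega), show 24 * φ.length + s - 24 * φ.length = s by omega]

theorem ss_var {φ : CNF} (s : ℕ) : ss φ (24 * φ.length + s) = 2 + s % 5 := by
  unfold ss
  rw [if_neg (by omega), show 24 * φ.length + s - 24 * φ.length = s by omega]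

theorem lit_clause {φ : CNF} {c r : ℕ} (hc : c < φ.length) (hr : r < 24)
    (hr' : r < φ[c].length) : lit φ (24 * c + r) = φ[c][r] := by
  unfold lit
  rw [show (24 * c + r) / 24 = c by omega, show (24 * c + r) % 24 = r by omega,
    List.getD_eq_getElem _ _ hc, List.getD_eq_getElem _ _ hr']

theorem sat_of_col6 {nv : ℕ} {φ : CNF} (h3 : ∀ c ∈ φ, c.length = 3)
    (hv : ∀ c ∈ φ, ∀ l ∈ c, l.1 < nv)
    (hC : (gr6 φ (24 * φ.length + 5 * nv)).Colorable 6) :
    ∃ a : ℕ → Bool, ∀ c ∈ φ, ∃ l ∈ c, a l.1 = l.2 := by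
  classical
  obtain ⟨C⟩ := hC
  set N := 24 * φ.length + 5 * nv with hN
  let col : ℕ → Fin 6 := fun i => if h : i < N then C ⟨i, h⟩ else 0
  have valid : ∀ i j, i < N → j < N → i ≠ j → Adj6 φ i j → col i ≠ col j := by
    intro i j hi hj hij h
    simp only [col, dif_pos hi, dif_pos hj]
    exact C.valid (show (gr6 φ N).Adj ⟨i, hi⟩ ⟨j, hj⟩ from ⟨hij, h⟩)
  let S : ℕ → Finset (Fin 6) := fun z =>
    ((Finset.range N).filter fun i => kd φ i = z).image col
  have memS : ∀ i z, i < N → kd φ i = z → col i ∈ S z := fun i z hi hz =>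
    Finset.mem_image_of_mem _ (Finset.mem_filter.2 ⟨Finset.mem_range.2 hi, hz⟩)
  have disj : Disjoint (S 1) (S 2) := by
    rw [Finset.disjoint_left]
    intro x hx hx'
    obtain ⟨i, hi, rfl⟩ := Finset.mem_image.1 hx
    obtain ⟨j, hj, e⟩ := Finset.mem_image.1 hx'
    rw [Finset.mem_filter, Finset.mem_range] at hi hj
    refine valid i j hi.1 hj.1 (fun h' => ?_) (Or.inl ⟨hi.2, hj.2⟩) e.symm
    have h1 := hi.2
    rw [h', hj.2] at h1
    omega
  have cardS : ∀ (z : ℕ) (y : Fin 3 → ℕ), (∀ s, y s < N ∧ kd φ (y s) = z) →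
      (∀ s s', s ≠ s' → y s ≠ y s' ∧ Adj6 φ (y s) (y s')) → 3 ≤ (S z).card := by
    intro z y h1 h2
    have := Finset.card_le_card_of_injOn (s := Finset.univ) (t := S z) (fun s => col (y s))
      (fun s _ => memS _ _ (h1 s).1 (h1 s).2)
      (fun s _ s' _ e => by
        by_contra h
        exact valid _ _ (h1 s).1 (h1 s').1 (h2 s s' h).1 (h2 s s' h).2 e)
    simpa using this
  have anti : ∀ (T : Finset (Fin 6)), T.card ≤ 3 → ∀ y : Fin 7 → ℕ, (∀ s, y s < N) →
      (∀ p q : Fin 7, aA p q = true → y p ≠ y q ∧ Adj6 φ (y p) (y q)) →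
      (∀ s, col (y s) ∈ T) → False := by
    intro T hT y h1 h2 h4
    obtain ⟨g, hg⟩ := exists_fin_of_card_le (n := 3) T hT (fun s => col (y s)) h4
    exact aA_not3 g fun p q h e => valid _ _ (h1 p) (h1 q) (h2 p q h).1 (h2 p q h).2 (hg _ _ e)
  refine ⟨fun v => decide (∃ i < 24 * φ.length, i % 24 < 3 ∧ lit φ i = (v, true) ∧ col i ∈ S 1),
    fun c hc => ?_⟩
  obtain ⟨c, hc', rfl⟩ := List.getElem_of_mem hc
  have hl := h3 _ hc
  have hnv : 0 < nv := lt_of_le_of_lt (Nat.zero_le _)
    (hv _ hc _ (List.getElem_mem (show 0 < φ[c].length by omega)))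
  have c1 : 3 ≤ (S 1).card := cardS 1 (fun s => 24 * φ.length + 2 * s)
    (fun s => ⟨by have := s.2; omega, kd_var _⟩) fun s s' h => by
      have h' : s.val ≠ s'.val := fun e => h (Fin.ext e)
      refine ⟨by omega, Or.inr (Or.inr (Or.inr ⟨Or.inl (by omega), Or.inl (by omega), ?_⟩))⟩
      rw [vv_var, vv_var, ss_var, ss_var]
      revert s s'
      decide
  have c2 : 3 ≤ (S 2).card := cardS 2 (fun s => 24 * c + (10 + 2 * s))
    (fun s => by
      have := s.2
      refine ⟨by omega, ?_⟩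
      rw [kd_clause hc' (by omega)]
      unfold kr
      rw [if_neg (by omega), if_neg (by omega)]) fun s s' h => by
      have h' : s.val ≠ s'.val := fun e => h (Fin.ext e)
      have hs := s.2
      have hs' := s'.2
      refine ⟨by omega, adj_clause6 hc' (by omega) (by omega) ?_⟩
      clear h' hs hs'
      revert s s'
      decide
  have hU : (S 1 ∪ S 2).card = (S 1).card + (S 2).card := Finset.card_union_of_disjoint disj
  have hle : (S 1 ∪ S 2).card ≤ 6 := by
    simpa using Finset.card_le_univ (S 1 ∪ S 2)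
  have huniv : S 1 ∪ S 2 = Finset.univ :=
    Finset.eq_univ_of_card _ (by rw [Fintype.card_fin]; omega)
  have hor : ∀ x, x ∈ S 1 ∨ x ∈ S 2 := fun x =>
    Finset.mem_union.1 (huniv ▸ Finset.mem_univ x)
  have blk : ∀ (t : Fin 4) (T : Finset (Fin 6)), T.card ≤ 3 →
      (∀ s : Fin 7, col (24 * c + emb t s) ∈ T) → False := fun t T hT h =>
    anti T hT (fun s => 24 * c + emb t s) (fun s => by have := emb_lt t s; omega)
      (fun p q h' => ⟨fun e => by
          have h1 := emb_ok t p q h'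
          have h2 := cA_irr ⟨_, emb_lt t q⟩
          rw [show emb t p = emb t q by omega] at h1
          simp only at h2
          rw [h1] at h2
          exact absurd h2 (by simp),
        adj_clause6 hc' (emb_lt t p) (emb_lt t q) (emb_ok t p q h')⟩) h
  have hterm : ∃ r < 3, col (24 * c + r) ∈ S 1 := by
    by_contra hcon
    push Not at hcon
    have h1 : ∀ t < 3, col (24 * c + (3 + t)) ∈ S 1 := fun t ht => by
      by_contra h1
      refine blk ⟨t, by omega⟩ (S 2) (by omega) fun s => ?_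
      have h2 := emb_lt ⟨t, by omega⟩ s
      rcases emb_B ⟨t, ht⟩ s with h | h | h
      · simp only at h ⊢
        rw [h]
        exact (hor _).resolve_left h1
      · simp only at h ⊢
        rw [h]
        exact (hor _).resolve_left (hcon t ht)
      · simp only at h h2 ⊢
        refine memS _ _ (by omega) ?_
        rw [kd_clause hc' h2]
        unfold kr
        rw [if_neg (by omega), if_neg (by omega)]
    refine blk 3 (S 1) (by omega) fun s => ?_
    have h2 := emb_A s
    change col (24 * c + emb 3 s) ∈ S 1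
    by_cases h : emb 3 s < 6
    · have := h1 (emb 3 s - 3) (by omega)
      rwa [show 3 + (emb 3 s - 3) = emb 3 s by omega] at this
    · refine memS _ _ (by omega) ?_
      rw [kd_clause hc' (by omega)]
      unfold kr
      rw [if_neg h, if_pos h2.2]
  obtain ⟨r, hr, hcol⟩ := hterm
  have hlit := lit_clause hc' (show r < 24 by omega) (show r < φ[c].length by omega)
  have hmem : φ[c][r] ∈ φ[c] := List.getElem_mem _
  refine ⟨φ[c][r], hmem, ?_⟩
  have hvlt := hv _ hc _ hmem
  generalize φ[c][r] = l at hlit hvlt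
  obtain ⟨v, sg⟩ := l
  cases sg
  · simp only [decide_eq_false_iff_not]
    rintro ⟨i, hi, hi1, hi2, hi3⟩
    simp only at hvlt
    let y : Fin 7 → ℕ := fun s => if s.val = 0 then i else if s.val = 1 then 24 * c + r
      else 24 * φ.length + (5 * v + (s - 2))
    have hy : ∀ s : Fin 7, y s < N ∧ inV φ (y s) ∧ vv φ (y s) = v ∧
        ss φ (y s) = s ∧ col (y s) ∈ S 1 := fun s => by
      have hs := s.2
      simp only [y]
      split_ifs with h0 h1
      · refine ⟨by omega, Or.inr hi1, ?_, ?_, hi3⟩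
        · unfold vv; rw [if_pos hi, hi2]
        · unfold ss; rw [if_pos hi, hi2, h0]; rfl
      · refine ⟨by omega, Or.inr (by omega), ?_, ?_, hcol⟩
        · unfold vv; rw [if_pos (by omega), hlit]
        · unfold ss; rw [if_pos (by omega), hlit, h1]; rfl
      · have hlt : 24 * φ.length + (5 * v + (s - 2)) < N := by omega
        rw [vv_var, ss_var]
        exact ⟨hlt, Or.inl (by omega), by omega, by omega, memS _ _ hlt (kd_var _)⟩
    refine anti (S 1) (by omega) y (fun s => (hy s).1) (fun p q h => ?_) fun s => (hy s).2.2.2.2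
    have hp := hy p
    have hq := hy q
    refine ⟨fun e' => ?_, Or.inr (Or.inr (Or.inr ⟨hp.2.1, hq.2.1, hp.2.2.1.trans hq.2.2.1.symm,
      by rw [hp.2.2.2.1, hq.2.2.2.1]; exact h⟩))⟩
    have : p.val = q.val := by rw [← hp.2.2.2.1, ← hq.2.2.2.1, e']
    unfold aA at h
    simp only [decide_eq_true_eq] at h
    exact h.1 this
  · simp only [decide_eq_true_eq]
    exact ⟨_, by omega, by omega, hlit, hcol⟩

theorem col_of_sat6 {φ : CNF} (h3 : ∀ c ∈ φ, c.length = 3) (N : ℕ) (a : ℕ → Bool)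
    (ha : ∀ c ∈ φ, ∃ l ∈ c, a l.1 = l.2) : (gr6 φ N).Colorable 6 := by
  classical
  have hch : ∀ c : ℕ, ∃ t < 3, c < φ.length →
      a ((φ.getD c []).getD t (0, false)).1 = ((φ.getD c []).getD t (0, false)).2 := fun c => by
    by_cases hc : c < φ.length
    · obtain ⟨l, hl, e⟩ := ha _ (List.getElem_mem hc)
      obtain ⟨t, ht, rfl⟩ := List.getElem_of_mem hl
      refine ⟨t, h3 _ (List.getElem_mem hc) ▸ ht, fun _ => ?_⟩
      rw [List.getD_eq_getElem _ _ hc, List.getD_eq_getElem _ _ ht]; exact e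
    · exact ⟨0, by omega, fun h => absurd h hc⟩
  choose t ht hta using hch
  let inP : ℕ → Prop := fun i => 24 * φ.length ≤ i ∨ i % 24 = t (i / 24)
  let col : ℕ → ℕ := fun i =>
    if inP i then aCol (a (vv φ i)) (ss φ i) else cCol (t (i / 24)) (i % 24)
  have hP : ∀ i, inP i → col i = aCol (a (vv φ i)) (ss φ i) ∧ col i < 3 ∧ inV φ i ∧ kd φ i ≠ 2 ∧
      ss φ i ≠ (if a (vv φ i) then 1 else 0) := by
    intro i h
    have e : col i = aCol (a (vv φ i)) (ss φ i) := by simp only [col, if_pos h]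
    have h0 := ht (i / 24)
    refine ⟨e, e ▸ aCol_lt _ ⟨_, ss_lt φ i⟩, ?_, ?_, ?_⟩
    · rcases h with h | h
      · exact Or.inl h
      · exact Or.inr (by omega)
    · unfold kd kr
      rcases h with h | h <;> split_ifs <;> omega
    · by_cases hi : i < 24 * φ.length
      · have h1 : i % 24 = t (i / 24) := by
          rcases h with h | h
          · omega
          · exact h
        have h4 := hta (i / 24) (by omega)
        rw [← h1] at h4
        change a (lit φ i).1 = (lit φ i).2 at h4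
        unfold vv ss
        rw [if_pos hi, if_pos hi, h4]
        split_ifs <;> omega
      · have : 2 ≤ ss φ i := by unfold ss; rw [if_neg hi]; omega
        split_ifs <;> omega
  have hQ : ∀ i, ¬inP i → col i = cCol (t (i / 24)) (i % 24) ∧ col i < 6 ∧ i < 24 * φ.length ∧
      i % 24 ≠ t (i / 24) ∧ (kd φ i = 1 → col i < 3) ∧ (10 ≤ i % 24 → 3 ≤ col i) ∧
      (inV φ i → 3 ≤ col i) := by
    intro i h
    have e : col i = cCol (t (i / 24)) (i % 24) := by simp only [col, if_neg h]
    have hr := cCol_range ⟨_, ht (i / 24)⟩ ⟨_, m24 i⟩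
    simp only [inP, not_or, not_le] at h
    simp only [← e, ← kd_of_lt h.1] at hr
    refine ⟨e, hr.1, h.1, h.2, hr.2.1, hr.2.2.1, fun hv => hr.2.2.2 ?_ h.2⟩
    have := h.1
    rcases hv with hv | hv <;> omega
  have k1 : ∀ i, kd φ i = 1 → col i < 3 := fun i hi => by
    by_cases h : inP i
    · exact (hP i h).2.1
    · exact (hQ i h).2.2.2.2.1 hi
  have k2 : ∀ i, kd φ i = 2 → 3 ≤ col i := fun i hi => by
    by_cases h : inP i
    · exact absurd hi (hP i h).2.2.2.1
    · refine (hQ i h).2.2.2.2.2.1 ?_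
      rw [kd_of_lt (hQ i h).2.2.1] at hi
      unfold kr at hi
      split_ifs at hi <;> omega
  have mixed : ∀ i j, inP i → ¬inP j → Adj6 φ i j → col i ≠ col j := by
    intro i j pi pj h
    have h1 := hP i pi
    have h2 := hQ j pj
    rcases h with h | h | h | h
    · have := k2 j h.2
      omega
    · exact absurd h.1 h1.2.2.2.1
    · have h4 : i % 24 < 3 := by
        have := h.1
        rcases h1.2.2.1 with hv | hv <;> omega
      have := h2.2.2.2.2.2.1 (cA_occ ⟨_, h4⟩ ⟨_, m24 j⟩ h.2.2.2)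
      omega
    · have := h2.2.2.2.2.2.2 h.2.1
      omega
  refine (SimpleGraph.colorable_iff_exists_bdd_nat_coloring _).2
    ⟨SimpleGraph.Coloring.mk (fun i => col i) fun {i j} h => ?_, fun i => ?_⟩
  · obtain ⟨hne, h⟩ := h
    by_cases pi : inP i <;> by_cases pj : inP j
    · have h1 := hP _ pi
      have h2 := hP _ pj
      have h4 := adj_nB_v h h1.2.2.2.1 h2.2.2.2.1 h1.2.2.1
      rw [h1.1, h2.1, ← h4.2.2.1]
      exact aCol_ok _ ⟨_, ss_lt φ i⟩ ⟨_, ss_lt φ j⟩ h1.2.2.2.2 (h4.2.2.1 ▸ h2.2.2.2.2) h4.2.2.2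
    · exact mixed _ _ pi pj h
    · exact (mixed _ _ pj pi h.symm).symm
    · have h1 := hQ _ pi
      have h2 := hQ _ pj
      rcases h with h | h | h | h
      · have := k1 _ h.1
        have := k2 _ h.2
        omega
      · have := k2 _ h.1
        have := k1 _ h.2
        omega
      · rw [h1.1, h2.1, ← h.2.2.1]
        exact cCol_ok ⟨_, ht _⟩ ⟨_, m24 _⟩ ⟨_, m24 _⟩ h1.2.2.2.1 (h.2.2.1 ▸ h2.2.2.2.1) h.2.2.2
      · exact absurd h (not_VAdj h1.2.2.1 h2.2.2.1)
  · change col i < 6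
    by_cases h : inP i
    · have := (hP i h).2.1
      omega
    · exact (hQ i h).2.1

/-- The reduction on formulas. -/
def red6 (φ : CNF) : List Bool :=
  code (24 * φ.length + 5 * nvar φ) (fun i j => decide (i ≠ j ∧ Adj6 φ i j))

theorem ls_red6 : LS red6 := by
  unfold red6 code nvar Adj6 CAdj VAdj inV kd kr vv ss lit cA aA
  fun_prop

theorem hard_six (L : N68a2faeb.DecisionProblem) (hL : L ∈ N68a2faeb.NP) :
    ∃ f : List Bool → List Bool, N68a2faeb.IsPolyTime f ∧ ∀ x,
      ∃ (n : ℕ) (G : SimpleGraph (Fin n)), f x = encode G ∧ LongHoleFree G ∧ P8Free G ∧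
        (L x = true ↔ G.Colorable 6) := by
  obtain ⟨φ, hφ, h3, h⟩ := cook_levin_ls L hL
  refine ⟨fun x => red6 (φ x), (LS.comp _ _ ls_red6 hφ).isPolyTime, fun x =>
    ⟨_, gr6 (φ x) (24 * (φ x).length + 5 * nvar (φ x)),
      (encode_eq _ _ fun i j => by simp [gr6]).symm, gr6_hole _ _, gr6_P8 _ _, ?_⟩⟩
  rw [h]
  exact ⟨fun ⟨a, ha⟩ => col_of_sat6 (h3 x) _ a ha,
    fun hC => sat_of_col6 (h3 x) (fun c hc l hl => lt_nvar hc hl) hC⟩

theorem P8Free_of_P6Free {V : Type} {G : SimpleGraph V} (h : P6Free G) : P8Free G := by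
  refine ⟨fun e => h.false (e.comp ⟨⟨Fin.castLE (by norm_num), Fin.castLE_injective _⟩, ?_⟩)⟩
  intro a b
  simp only [Function.Embedding.coeFn_mk, SimpleGraph.pathGraph_adj, Fin.val_castLE]

theorem hard6 (k : ℕ) (hk : 6 ≤ k) (L : N68a2faeb.DecisionProblem) (hL : L ∈ N68a2faeb.NP) :
    ∃ f : List Bool → List Bool, N68a2faeb.IsPolyTime f ∧ ∀ x,
      ∃ (n : ℕ) (G : SimpleGraph (Fin n)), f x = encode G ∧ LongHoleFree G ∧ P8Free G ∧
        (L x = true ↔ G.Colorable k) := by
  rcases hk.eq_or_lt with rfl | hk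
  · exact hard_six L hL
  · obtain ⟨f, hf, h⟩ := hard k hk L hL
    refine ⟨f, hf, fun x => ?_⟩
    obtain ⟨n, G, h1, h2, h3, h4⟩ := h x
    exact ⟨n, G, h1, h2, P8Free_of_P6Free h3, h4⟩

end Pool.Agent.Work.MP_27b024_lc.Six
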